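import Pool.Agent.Q263.ZO.Bounded

/-!
# The structure of the algebra of multiple zeta values if the dimensions do not tend to infinity

Let `Z k` be the `ℚ`-span of the multiple zeta values of weight `k` (`Zs k`). In the conjectured
structure of the algebra `⨁ Z k` the dimensions tend to infinity. We determine unconditionally the
structure if they do not: exactly one of the following holds.

(A) `dim Z k → ∞`.

(B) There is a real number field `K` which contains `(ζ(3) / π^3)^2`, such that for all large `i`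
    `Z_{2i} = π^{2i} K` and `Z_{2i+3} = π^{2i} ζ(3) K`; that is, in large degrees the algebra `⨁ Z k`
    is `K[π^2, ζ(3)]` with the relation `ζ(3)^2 = t π^6`, `t ∈ K`. Then `dim Z k = [K : ℚ]` for all
    large `k`, and for all `k` the elements `z` of `Z k` satisfy `(z / π^k)^2 ∈ K`; so all multiple
    zeta values of weight `k` are algebraic multiples of `π^k`.

Local version: if `dim Z_{4i} ≤ dim Z_{2i}` for one `i`, then there is a real number field `K` of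
degree `dim Z_{2i}` with `Z_{2i} = π^{2i} K`, `Z_{4i} = π^{4i} K`, and `Z_{2j} ⊆ π^{2j} K` for all
`j ≤ 2i`. So the transcendence of `z / π^{2j}` for one `z ∈ Z_{2j}` implies
`dim Z_{4i} > dim Z_{2i}` for all `i` with `2i ≥ j`.
-/

set_option autoImplicit false

open Module Filter Topology

namespace Pool.Agent.Results.MP_f3dc73_nt.BoundedDimensions

open Pool.Agent.Q263.ZO Pool.Agent.H447R2.MZ

theorem result :
    (Tendsto (fun k => finrank ℚ (Zs k)) atTop atTop ∧ ¬ (∃ K : IntermediateField ℚ ℝ, Shape K) ∨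
      ¬ Tendsto (fun k => finrank ℚ (Zs k)) atTop atTop ∧ ∃ K : IntermediateField ℚ ℝ,
        FiniteDimensional ℚ K ∧ (z3 / Real.pi ^ 3) ^ 2 ∈ K ∧
        (∃ i₀, ∀ i, i₀ ≤ i →
          (∀ x, x ∈ Zs (2 * i) ↔ ∃ a ∈ K, x = Real.pi ^ (2 * i) * a) ∧
          (∀ x, x ∈ Zs (2 * i + 3) ↔ ∃ a ∈ K, x = Real.pi ^ (2 * i) * z3 * a) ∧
          finrank ℚ (Zs (2 * i)) = finrank ℚ K ∧ finrank ℚ (Zs (2 * i + 3)) = finrank ℚ K) ∧
        (∀ k, ∀ z ∈ Zs k, (z / Real.pi ^ k) ^ 2 ∈ K) ∧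
        (∀ k, ∀ z ∈ Zs k, IsAlgebraic ℚ (z / Real.pi ^ k)) ∧
        ∀ᶠ k in atTop, finrank ℚ (Zs k) = finrank ℚ K) ∧
    (∀ i, finrank ℚ (Zs (4 * i)) ≤ finrank ℚ (Zs (2 * i)) → ∃ K : IntermediateField ℚ ℝ,
      FiniteDimensional ℚ K ∧ finrank ℚ K = finrank ℚ (Zs (2 * i)) ∧
      (∀ x, x ∈ Zs (2 * i) ↔ ∃ a ∈ K, x = Real.pi ^ (2 * i) * a) ∧
      (∀ x, x ∈ Zs (4 * i) ↔ ∃ a ∈ K, x = Real.pi ^ (4 * i) * a) ∧
      ∀ j, j ≤ 2 * i → ∀ x ∈ Zs (2 * j), x / Real.pi ^ (2 * j) ∈ K) ∧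
    (∀ j, (∃ z ∈ Zs (2 * j), Transcendental ℚ (z / Real.pi ^ (2 * j))) → ∀ i, j ≤ 2 * i →
      finrank ℚ (Zs (2 * i)) < finrank ℚ (Zs (4 * i))) := by
  have hno : ∀ K : IntermediateField ℚ ℝ, Shape K → ¬ Tendsto (fun k => finrank ℚ (Zs k)) atTop atTop := by
    intro K hK ht
    have h1 := hK.dim
    have h2 := ht.eventually_gt_atTop (finrank ℚ K)
    obtain ⟨k, hk1, hk2⟩ := (h1.and h2).exists
    omega
  refine ⟨?_, local_field, ?_⟩
  · by_cases h : Tendsto (fun k => finrank ℚ (Zs k)) atTop atTop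
    · exact Or.inl ⟨h, fun ⟨K, hK⟩ => hno K hK h⟩
    · obtain ⟨K, hK⟩ := exists_shape (bounded_of_not_tendsto h)
      exact Or.inr ⟨h, K, hK.1, hK.2.1, hK.2.2.1, hK.2.2.2, hK.algebraic, hK.dim⟩
  · rintro j ⟨z, hz, ht⟩ i hi
    by_contra hlt
    obtain ⟨K, hfin, _, _, _, h⟩ := local_field i (not_lt.1 hlt)
    apply ht
    have h3 : IsAlgebraic ℚ (⟨_, h j hi z hz⟩ : K) := Algebra.IsAlgebraic.isAlgebraic _
    exact h3.algebraMap

end Pool.Agent.Results.MP_f3dc73_nt.BoundedDimensions
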