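import Pool.Agent.Q47.AB.Exp
import Pool.Agent.Q29.EqCo
import Pool.Agent.Q29.MzBd
import Pool.Agent.Results.MP_f3dc73_nt.SharpMeasures

/-!
# Independent elements of the stuffle algebra: multiples by the elements of two arbitrary dense sets

A word is a list of letters `(a, b)` with `a ≥ 1`, `b ≥ 0`; its value at `n` is the multiple zeta value with the arguments
`a n + b`. Let `x_0 = 1, x_1, …, x_r` be rational combinations of products of words which are linearly independent elements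
of the stuffle algebra (for example monomials in algebraically independent elements of it), and let `β_0 = 1, β_1, …, β_l`
be real algebraic numbers, linearly independent over the rationals. Consider some of the numbers `β_j x_i(n)`,
`(j, i) ≠ (0, 0)`, each at most once.
There is `D > 1` such that for all `E`, `K` and `η > 0` there is `κ > 0` such that for all large `n` and all `M` with
`D ^ n ≤ M ≤ E ^ n` every combination `x` of these numbers with integer coefficients at most `M ^ κ`, not all zero, has the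
following property: for ALL dense sets `A` of integers below `M` and `B` of integers below `H`, `H ≥ M ^ η`, all real numbers
`y_a` and real polynomials `R_c` of degree less than `k ≤ K`, the numbers `b x a ^ k c + R_c(a) + y_a`, `(a, c) ∈ A × B`, are
uniformly distributed modulo one with a power saving.

The proof uses the measure of the starting hand-in `SharpMeasures`, a bilinear estimate and an inverse theorem for the sums
of Weyl (`Q47/DG/EqdK`, `Q47/AB/Exp`, `H373R2/NB`).
-/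

set_option autoImplicit false

namespace Pool.Agent.Results.MP_f3dc73_nt.PairsFromDenseSets

open Finset Polynomial
open Pool.Agent.Results.MP_f3dc73_nt.SharpMeasures (trunc mzv Word value expansion)

/-- Polynomials over two dense sets are uniformly distributed at the scale `M`, with a power saving: for all integers
`b ≠ 0` with `|b| ≤ M ^ κ`, all degrees `1 ≤ k ≤ K`, all integers `H ≥ M ^ η`, ALL sets `A` of integers in `[0, M)` and `B` of
integers in `[0, H)` with `|A| |B| ≥ M ^ (1 - κ) H`, all real numbers `y_a`, all real polynomials `R_c` of degree less than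
`k` and all `0 ≤ u ≤ v ≤ 1`, the number of the pairs `(a, c) ∈ A × B` with the fractional part of
`b x a ^ k c + R_c(a) + y_a` in `[u, v)` is `(v - u) |A| |B|`, up to `|A| |B| M ^ (-κ)`. -/
def PGood (K : ℕ) (η κ : ℝ) (M : ℕ) (x : ℝ) : Prop :=
  ∀ b : ℤ, b ≠ 0 → |(b : ℝ)| ≤ (M : ℝ) ^ κ → ∀ k : ℕ, 1 ≤ k → k ≤ K → ∀ H : ℕ, (M : ℝ) ^ η ≤ H →
    ∀ A B : Finset ℕ, (∀ a ∈ A, a < M) → (∀ c ∈ B, c < H) → (M : ℝ) ^ (1 - κ) * H ≤ #A * #B →
    ∀ (y : ℕ → ℝ) (R : ℕ → ℝ[X]), (∀ c, (R c).degree < k) → ∀ u v : ℝ, 0 ≤ u → u ≤ v → v ≤ 1 →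
      |(#{i ∈ A ×ˢ B | u ≤ Int.fract (b * x * i.1 ^ k * i.2 + (R i.2).eval (i.1 : ℝ) + y i.1) ∧
          Int.fract (b * x * i.1 ^ k * i.2 + (R i.2).eval (i.1 : ℝ) + y i.1) < v} : ℝ) -
        (v - u) * (#A * #B)| ≤ #A * #B * (M : ℝ) ^ (-κ)

theorem pgood_iff (K : ℕ) (η κ : ℝ) (M : ℕ) (x : ℝ) : PGood K η κ M x ↔ Pool.Agent.Q47.DG.PGood K η κ M x := Iff.rfl

/-- Every combination of the coordinates of `x` with integer coefficients at most `M ^ κ`, not all zero, has the property
`PGood`. -/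
def Pairs (K : ℕ) (η κ : ℝ) (M : ℕ) {s : ℕ} (x : Fin s → ℝ) : Prop :=
  ∀ l : Fin s → ℤ, l ≠ 0 → (∀ i, |(l i : ℝ)| ≤ (M : ℝ) ^ κ) → PGood K η κ M (∑ i, (l i : ℝ) * x i)

theorem trunc_eq (w : List ℕ) : ∀ m, trunc w m = Pool.Agent.Y760.ZG.hr w m := by
  induction w with
  | nil => intro m; rw [trunc, Pool.Agent.Y760.ZG.hr_nil]
  | cons s w ih =>
    intro m
    rw [trunc, Pool.Agent.Y760.ZG.hr_cons]
    exact Finset.sum_congr rfl fun j _ => by rw [ih]

theorem mzv_eq (w : List ℕ) : mzv w = Pool.Agent.Y760.ZG.mz w := by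
  cases w with
  | nil => rw [mzv, Pool.Agent.Y760.ZG.mz]
  | cons s w =>
    rw [mzv, Pool.Agent.Y760.ZG.mz]
    exact tsum_congr fun m => by rw [trunc_eq]

theorem value_le {n : ℕ} {w : Word} (hn : w.length + 1 ≤ n) : |value n w| ≤ 2 := by
  rw [value, mzv_eq]
  refine Pool.Agent.Q29.Eqd.abs_mz_le _ fun t ht => ?_
  rw [List.head?_map, Option.mem_map] at ht
  obtain ⟨y, hy, rfl⟩ := ht
  rw [List.length_map]
  have h3 : 1 * n ≤ (y.1 : ℕ) * n := Nat.mul_le_mul_right n y.1.2
  omega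

theorem prod_le {n : ℕ} (M : List Word) (hn : ∀ w ∈ M, w.length + 1 ≤ n) : |(M.map (value n)).prod| ≤ 2 ^ M.length := by
  induction M with
  | nil => simp
  | cons w M ih =>
    rw [List.map_cons, List.prod_cons, List.length_cons, abs_mul, pow_succ, mul_comm]
    exact mul_le_mul (ih fun u hu => hn u (List.mem_cons_of_mem _ hu)) (value_le (hn w (by simp))) (abs_nonneg _)
      (by positivity)

theorem eval_bound (x : List Word →₀ ℚ) : ∃ (Y : ℝ) (n0 : ℕ), 0 ≤ Y ∧ ∀ n : ℕ, n0 ≤ n → |SharpMeasures.eval n x| ≤ Y := by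
  refine ⟨∑ M ∈ x.support, |(x M : ℝ)| * 2 ^ M.length, ∑ M ∈ x.support, (M.map fun w => w.length + 1).sum,
    Finset.sum_nonneg fun M _ => by positivity, fun n hn => ?_⟩
  unfold SharpMeasures.eval
  rw [Finsupp.linearCombination_apply, Finsupp.sum]
  refine (Finset.abs_sum_le_sum_abs _ _).trans (Finset.sum_le_sum fun M hM => ?_)
  rw [Rat.smul_def, abs_mul]
  refine mul_le_mul_of_nonneg_left (prod_le M fun w hw => ?_) (abs_nonneg _)
  have h1 : (M.map fun w => w.length + 1).sum ≤ ∑ M ∈ x.support, (M.map fun w => w.length + 1).sum :=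
    Finset.single_le_sum (f := fun M : List Word => (M.map fun w => w.length + 1).sum) (fun _ _ => Nat.zero_le _) hM
  have h2 : w.length + 1 ≤ (M.map fun w => w.length + 1).sum :=
    List.single_le_sum (fun _ _ => Nat.zero_le _) _ (List.mem_map_of_mem hw)
  omega

/-- **Independent elements of the stuffle algebra: every small combination of their values has equidistributed multiples
over two arbitrary dense sets.** -/
theorem result {l r s : ℕ} (β : Fin (l + 1) → ℝ) (hβ : ∀ j, IsAlgebraic ℚ (β j)) (hβ0 : β 0 = 1)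
    (hβi : LinearIndependent ℚ β) (x : Fin (r + 1) → List Word →₀ ℚ)
    (h0 : x 0 = Finsupp.single [] 1) (hx : LinearIndependent ℚ fun i => expansion (x i))
    (f : Fin s → Fin (l + 1) × Fin (r + 1)) (hf : Function.Injective f) (hf0 : ∀ k, f k ≠ (0, 0)) :
    ∃ D : ℝ, 1 < D ∧ ∀ (E : ℝ) (K : ℕ) (η : ℝ), 0 < η → ∃ κ : ℝ, 0 < κ ∧ ∃ n0 : ℕ, ∀ n : ℕ, n0 ≤ n → ∀ M : ℕ,
      D ^ n ≤ (M : ℝ) → (M : ℝ) ≤ E ^ n → Pairs K η κ M (fun k => β (f k).1 * SharpMeasures.eval n (x (f k).2)) := by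
  choose Y ny hY hYb using fun i => eval_bound (x i)
  obtain ⟨X, hXE⟩ : ∃ X : ℝ, X = 1 + ∑ k, |β (f k).1| * Y (f k).2 := ⟨_, rfl⟩
  have hX : 1 ≤ X := by
    rw [hXE]
    have : 0 ≤ ∑ k, |β (f k).1| * Y (f k).2 := Finset.sum_nonneg fun k _ => mul_nonneg (abs_nonneg _) (hY _)
    linarith
  have hβX : ∀ k, |β (f k).1| * Y (f k).2 ≤ X := fun k => by
    have := Finset.single_le_sum (f := fun k => |β (f k).1| * Y (f k).2)
      (fun k _ => mul_nonneg (abs_nonneg _) (hY _)) (mem_univ k)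
    rw [hXE]
    linarith
  obtain ⟨D₀, hD₀, hmain⟩ := Pool.Agent.Results.MP_f3dc73_nt.SharpMeasures.result β hβ hβi x h0 hx
  obtain ⟨G, hG⟩ : ∃ G : ℝ, G = max D₀ (2 * X) := ⟨_, rfl⟩
  have hG1 : 1 < G := by rw [hG]; exact lt_of_lt_of_le hD₀ (le_max_left _ _)
  have hG0 : 0 < G := by linarith
  obtain ⟨n0, hn0⟩ := hmain G 2 (by norm_num)
  obtain ⟨B, hBE⟩ : ∃ B : ℝ, B = G ^ ((l + 1) * (r + 1) - 1) * 2 := ⟨_, rfl⟩
  have hB : 1 < B := by
    rw [hBE]
    have := one_le_pow₀ hG1.le (n := (l + 1) * (r + 1) - 1)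
    linarith
  refine ⟨B ^ 2, one_lt_pow₀ hB (by norm_num), fun E K η hη => ?_⟩
  obtain ⟨κ, hκ, n₁, hjoint⟩ := Pool.Agent.Q47.AB.comb_exp (PGood K η)
    (Pool.Agent.Q47.DG.Abs.engine_prod K η hη) s 2 B X E (by norm_num) hB hX
  refine ⟨κ, hκ, n0 + n₁ + (∑ i, ny i) + 2, fun n hn M hDM hME => ?_⟩
  intro lc hlc0 hlc
  refine hjoint n (by omega) _ (fun k => ?_) (fun v a hv hvA haA => ?_) M hDM hME lc hlc0 hlc
  · have h2 : ny (f k).2 ≤ ∑ i, ny i := Finset.single_le_sum (f := ny) (fun _ _ => Nat.zero_le _) (mem_univ _)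
    calc |β (f k).1 * SharpMeasures.eval n (x (f k).2)| ≤ |β (f k).1| * Y (f k).2 := by
          rw [abs_mul]
          exact mul_le_mul_of_nonneg_left (hYb _ n (by omega)) (abs_nonneg _)
      _ ≤ X := hβX _
      _ ≤ X ^ n := le_self_pow₀ hX (by omega)
  · have heval : SharpMeasures.eval n (x 0) = 1 := by
      rw [h0, SharpMeasures.eval, Finsupp.linearCombination_single]
      simp
    obtain ⟨co, hco1, ⟨k, hk⟩, hco2⟩ := Pool.Agent.Q29.Eqd.forms ((0, 0) : Fin (l + 1) × Fin (r + 1)) f hf hf0 univ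
      (mem_univ _) (fun k => mem_univ _) v a hv ((2 * X) ^ n)
      (fun i => (hvA i).trans (pow_le_pow_left₀ (by norm_num) (by linarith) n)) haA
      (fun j u => β j * SharpMeasures.eval n (x u)) (by
        show β 0 * SharpMeasures.eval n (x 0) = 1
        rw [hβ0, heval, one_mul])
    have h1 := hn0 n (by omega) (G ^ n) (pow_le_pow_left₀ (by linarith) (by rw [hG]; exact le_max_left _ _) n) le_rfl
      (fun j i => co i j) (fun h0 => hk (congrFun (congrFun h0 _) _)) (fun j i => (hco1 i j).trans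
        (pow_le_pow_left₀ (by linarith) (by rw [hG]; exact le_max_right _ _) n))
    have h3 : 1 / ((G ^ n) ^ ((l + 1) * (r + 1) - 1) * 2 ^ n) = (B ^ n)⁻¹ := by
      rw [hBE, mul_pow, one_div, ← pow_mul, ← pow_mul, mul_comm n]
    rw [h3] at h1
    refine lt_of_lt_of_eq h1 ?_
    congr 1
    rw [← hco2]
    exact Finset.sum_comm

end Pool.Agent.Results.MP_f3dc73_nt.PairsFromDenseSets
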