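import Mathlib
import Pool.Agent.Q217.TT.Real

/-!
# MP_f3dc73_nt: relations between products of multiple zeta values with a common first part

Let `x_1, ..., x_r` be real numbers, for example products of multiple zeta values or powers of `π ^ 2`, `U` a finite set of
words in positive integers and `h ≥ 0`. There is `L` such that for all words `p` of length at least `L` with letters at least
two: every linear relation between the products `x_i ζ(p u)`, `i ≤ r`, `u ∈ U`, with integer coefficients `c_{i,u}` of
absolute value at most `h` is a consequence of linear relations between the `x_i`: `∑_i c_{i,u} x_i = 0` for all `u ∈ U`.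
The letters of `p` belong to the largest summation variables.

The proof is elementary. The combination is a sum of the values of `F = ∑ c_u H_u`, `c_u = ∑_i c_{i,u} x_i`, where `H_u` is the
truncated harmonic sum of `u`, with positive weights depending on `p`; for long `p` the weights decrease so fast that the
first nonzero value of `F` decides. The harmonic sums `H_u` have rational values and are linearly independent over `ℚ`, so
also over `ℝ`. The starting library contains the independence over `ℚ`.
-/

set_option autoImplicit false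

namespace Pool.Agent.Results.MP_f3dc73_nt.ProductsWithCommonPrefix

/-- the multiple zeta value of the list `l`: the sum of `∏ m_i ^ (- l_i)` over `m_1 > m_2 > ... > 0` (the first entry belongs
to the largest summation variable) -/
noncomputable def mzv (l : List ℕ) : ℝ :=
  ∑' m : {m : Fin l.length → ℕ // StrictAnti m ∧ ∀ i, 0 < m i}, ∏ i, ((m.1 i : ℝ) ^ (l.get i))⁻¹

/-- the list of natural numbers of a list of positive integers -/
def toNat (u : List ℕ+) : List ℕ := List.map (fun x : ℕ+ => (x : ℕ)) u

lemma mzv_eq {l : List ℕ} (hl : Pool.Agent.H447R2.MZ.Adm l) : mzv l = Pool.Agent.H447R2.MZ.val l := by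
  have h1 := Pool.Agent.H447R2.MZ.hasSum_val l.length l.get (by rw [List.ofFn_get]; exact hl)
  rw [List.ofFn_get] at h1
  exact h1.tsum_eq

lemma adm {p : List ℕ} (hp0 : p ≠ []) (hp : ∀ x ∈ p, 2 ≤ x) (u : List ℕ+) :
    Pool.Agent.H447R2.MZ.Adm (p ++ toNat u) := by
  obtain ⟨q, s, rfl⟩ : ∃ q s, p = q ++ [s] := by
    rcases List.eq_nil_or_concat p with rfl | ⟨q, s, rfl⟩
    · exact absurd rfl hp0
    · exact ⟨q, s, List.concat_eq_append⟩
  have h1 := Pool.Agent.Q217.TT.adm_app q (fun x hx => hp x (by simp [hx])) s (hp s (by simp)) u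
  rw [List.append_assoc, List.singleton_append]
  exact h1

/-- **Theorem.** Let `x_1, ..., x_r` be real numbers, `U` a finite set of words in positive integers and `h ≥ 0`. There is
`L` such that for all words `p` of length at least `L` with letters at least two and all integers `c_{i,u}` of absolute
value at most `h`: if `∑_{i,u} c_{i,u} x_i ζ(p u) = 0`, then `∑_i c_{i,u} x_i = 0` for all `u ∈ U`. -/
theorem result {r : ℕ} (x : Fin r → ℝ) (U : Finset (List ℕ+)) (h : ℕ) : ∃ L : ℕ, ∀ p : List ℕ,
    (∀ s ∈ p, 2 ≤ s) → L ≤ p.length → ∀ c : Fin r → List ℕ+ → ℤ, (∀ i, ∀ u ∈ U, |c i u| ≤ h) →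
      ∑ i, ∑ u ∈ U, (c i u : ℝ) * (x i * mzv (p ++ toNat u)) = 0 → ∀ u ∈ U, ∑ i, (c i u : ℝ) * x i = 0 := by
  obtain ⟨L, hL⟩ := Pool.Agent.Q217.TT.products x U h
  refine ⟨L + 1, fun p hp hLp c hc hsum => hL p hp (by omega) c hc ?_⟩
  have hp0 : p ≠ [] := by
    rintro rfl
    simp at hLp
  rw [← hsum]
  refine Finset.sum_congr rfl fun i _ => Finset.sum_congr rfl fun u _ => ?_
  rw [mzv_eq (adm hp0 hp u)]
  rfl

end Pool.Agent.Results.MP_f3dc73_nt.ProductsWithCommonPrefix
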